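import Pool.Agent.Shared.PolyTime

/-!
CNF formulas, exact three-literal formulas, and the polynomial-time passage between them.
A literal `(b, v)` is true under `τ` when `τ v = b`.
-/

namespace Pool.Agent.Shared.CookLevin

open Pool.Agent.Shared.PolyTime

/-- Formulas in conjunctive normal form over the variables `V`. -/
abbrev CNF (V : Type) := List (List (Bool × V))

/-- Satisfiability of a CNF formula. -/
def Sat {V : Type} (φ : CNF V) : Prop := ∃ τ : V → Bool, ∀ C ∈ φ, ∃ l ∈ C, τ l.2 = l.1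

/-- Formulas all of whose clauses have exactly three literals. -/
abbrev E3 (V : Type) := List ((Bool × V) × (Bool × V) × (Bool × V))

/-- Satisfiability of a three-literal formula. -/
def Sat3 {V : Type} (φ : E3 V) : Prop :=
  ∃ τ : V → Bool, ∀ C ∈ φ, τ C.1.2 = C.1.1 ∨ τ C.2.1.2 = C.2.1.1 ∨ τ C.2.2.2 = C.2.2.1

/-- The three variables of every clause are distinct. -/
def Distinct3 {V : Type} (φ : E3 V) : Prop :=
  ∀ C ∈ φ, C.1.2 ≠ C.2.1.2 ∧ C.1.2 ≠ C.2.2.2 ∧ C.2.1.2 ≠ C.2.2.2

section rename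

variable {V : Type} [DecidableEq V]

/-- all occurrences of variables -/
def vars (φ : CNF V) : List V := φ.flatMap fun C => C.map fun l => l.2

/-- rename every variable by the position of its first occurrence -/
def rename (φ : CNF V) : CNF ℕ := φ.map fun C => C.map fun l => (l.1, (vars φ).idxOf l.2)

theorem getD_idxOf {l : List V} {v : V} (h : v ∈ l) (d : V) : l.getD (l.idxOf v) d = v := by
  rw [List.getD_eq_getElem _ _ (List.idxOf_lt_length_iff.2 h), List.getElem_idxOf]

theorem sat_rename [Inhabited V] (φ : CNF V) : Sat (rename φ) ↔ Sat φ := by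
  constructor
  · rintro ⟨τ, h⟩
    refine ⟨fun v => τ ((vars φ).idxOf v), fun C hC => ?_⟩
    obtain ⟨l, hl, h1⟩ := h _ (List.mem_map.2 ⟨C, hC, rfl⟩)
    obtain ⟨l', hl', rfl⟩ := List.mem_map.1 hl
    exact ⟨l', hl', h1⟩
  · rintro ⟨τ, h⟩
    refine ⟨fun n => τ ((vars φ).getD n default), fun C hC => ?_⟩
    obtain ⟨C', hC', rfl⟩ := List.mem_map.1 hC
    obtain ⟨l, hl, h1⟩ := h C' hC'
    refine ⟨_, List.mem_map.2 ⟨l, hl, rfl⟩, ?_⟩
    have : l.2 ∈ vars φ := List.mem_flatMap.2 ⟨C', hC', List.mem_map.2 ⟨l, hl, rfl⟩⟩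
    simp only [getD_idxOf this, h1]

theorem rename_pt [N487b59b3 V] {α : Type} [N487b59b3 α] {φ : α → CNF V} (h : PT φ) :
    PT (fun a => rename (φ a)) := by
  unfold rename vars; fun_prop

/-- all occurrences of variables -/
def vars3 (φ : E3 V) : List V := φ.flatMap fun C => [C.1.2, C.2.1.2, C.2.2.2]

/-- rename every variable by the position of its first occurrence -/
def rename3 (φ : E3 V) : E3 ℕ := φ.map fun C =>
  ((C.1.1, (vars3 φ).idxOf C.1.2), (C.2.1.1, (vars3 φ).idxOf C.2.1.2),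
    (C.2.2.1, (vars3 φ).idxOf C.2.2.2))

omit [DecidableEq V] in
theorem mem_vars3 {φ : E3 V} {C : (Bool × V) × (Bool × V) × (Bool × V)} (hC : C ∈ φ) :
    C.1.2 ∈ vars3 φ ∧ C.2.1.2 ∈ vars3 φ ∧ C.2.2.2 ∈ vars3 φ := by
  refine ⟨?_, ?_, ?_⟩ <;> exact List.mem_flatMap.2 ⟨C, hC, by simp⟩

omit [DecidableEq V] in
theorem length_vars3 (φ : E3 V) : (vars3 φ).length = 3 * φ.length := by
  unfold vars3
  induction φ with
  | nil => simp
  | cons C φ ih => simp only [List.flatMap_cons, List.length_append, ih, List.length_cons]; simp; omega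

theorem sat3_rename3 [Inhabited V] (φ : E3 V) : Sat3 (rename3 φ) ↔ Sat3 φ := by
  constructor
  · rintro ⟨τ, h⟩
    exact ⟨fun v => τ ((vars3 φ).idxOf v), fun C hC => h _ (List.mem_map.2 ⟨C, hC, rfl⟩)⟩
  · rintro ⟨τ, h⟩
    refine ⟨fun n => τ ((vars3 φ).getD n default), fun C hC => ?_⟩
    obtain ⟨C', hC', rfl⟩ := List.mem_map.1 hC
    obtain ⟨h1, h2, h3⟩ := mem_vars3 hC'
    simp only [getD_idxOf h1, getD_idxOf h2, getD_idxOf h3]
    exact h C' hC'

theorem distinct3_rename3 {φ : E3 V} (h : Distinct3 φ) : Distinct3 (rename3 φ) := by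
  intro C hC
  obtain ⟨C', hC', rfl⟩ := List.mem_map.1 hC
  obtain ⟨h1, h2, -⟩ := mem_vars3 hC'
  obtain ⟨d1, d2, d3⟩ := h C' hC'
  exact ⟨fun e => d1 ((List.idxOf_inj h1).1 e), fun e => d2 ((List.idxOf_inj h1).1 e),
    fun e => d3 ((List.idxOf_inj h2).1 e)⟩

theorem lt_rename3 (φ : E3 V) : ∀ C ∈ rename3 φ, C.1.2 < 3 * (rename3 φ).length ∧
    C.2.1.2 < 3 * (rename3 φ).length ∧ C.2.2.2 < 3 * (rename3 φ).length := by
  intro C hC
  obtain ⟨C', hC', rfl⟩ := List.mem_map.1 hC
  obtain ⟨h1, h2, h3⟩ := mem_vars3 hC'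
  have e : (rename3 φ).length = φ.length := by simp [rename3]
  rw [e, ← length_vars3]
  exact ⟨List.idxOf_lt_length_iff.2 h1, List.idxOf_lt_length_iff.2 h2,
    List.idxOf_lt_length_iff.2 h3⟩

theorem rename3_pt [N487b59b3 V] {α : Type} [N487b59b3 α] {φ : α → E3 V} (h : PT φ) :
    PT (fun a => rename3 (φ a)) := by
  unfold rename3 vars3; fun_prop

end rename

/-- four clauses forcing the literal `l` -/
def force (l : Bool × ℕ × ℕ × ℕ) : E3 (ℕ × ℕ × ℕ) :=
  [(l, (true, (2, 0, 0)), (true, (2, 1, 0))), (l, (true, (2, 0, 0)), (false, (2, 1, 0))),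
   (l, (false, (2, 0, 0)), (true, (2, 1, 0))), (l, (false, (2, 0, 0)), (false, (2, 1, 0)))]

/-- splitting of clauses into chains of three-literal clauses -/
def toE3 (φ : CNF ℕ) : E3 (ℕ × ℕ × ℕ) := φ.zipIdx.flatMap fun p =>
  force (false, (1, p.2, 0)) ++ force (true, (1, p.2, p.1.length)) ++
    p.1.zipIdx.map fun q =>
      ((true, (1, p.2, q.2)), (q.1.1, (0, q.1.2, 0)), (false, (1, p.2, q.2 + 1)))

theorem toE3_pt {α : Type} [N487b59b3 α] {φ : α → CNF ℕ} (h : PT φ) :
    PT (fun a => toE3 (φ a)) := by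
  unfold toE3 force; fun_prop

theorem distinct3_toE3 (φ : CNF ℕ) : Distinct3 (toE3 φ) := by
  intro C hC
  simp only [toE3, force, List.mem_flatMap, List.mem_append, List.mem_map, List.mem_cons,
    List.not_mem_nil, or_false] at hC
  obtain ⟨p, -, (h | h) | h⟩ := hC
  · rcases h with rfl | rfl | rfl | rfl <;> simp
  · rcases h with rfl | rfl | rfl | rfl <;> simp
  · obtain ⟨q, -, rfl⟩ := h
    simp

theorem force_sound {τ : ℕ × ℕ × ℕ → Bool} {l : Bool × ℕ × ℕ × ℕ}
    (h : ∀ C ∈ force l, τ C.1.2 = C.1.1 ∨ τ C.2.1.2 = C.2.1.1 ∨ τ C.2.2.2 = C.2.2.1) :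
    τ l.2 = l.1 := by
  simp only [force, List.mem_cons, List.not_mem_nil, or_false, forall_eq_or_imp, forall_eq] at h
  obtain ⟨h1, h2, h3, h4⟩ := h
  cases ha : τ (2, 0, 0) <;> cases hb : τ (2, 1, 0) <;> simp_all

theorem sat3_toE3 (φ : CNF ℕ) : Sat3 (toE3 φ) ↔ Sat φ := by
  constructor
  · rintro ⟨τ, h⟩
    refine ⟨fun v => τ (0, v, 0), fun C hC => ?_⟩
    obtain ⟨i, hi⟩ := List.mem_iff_getElem?.1 hC
    have hp : (C, i) ∈ φ.zipIdx := List.mem_zipIdx_iff_getElem?.2 hi
    have h0 : τ (1, i, 0) = false := force_sound (l := (false, (1, i, 0))) fun D hD =>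
      h D (List.mem_flatMap.2 ⟨_, hp, by simp [hD]⟩)
    have h1 : τ (1, i, C.length) = true := force_sound (l := (true, (1, i, C.length))) fun D hD =>
      h D (List.mem_flatMap.2 ⟨_, hp, by simp [hD]⟩)
    by_contra hcon
    push Not at hcon
    have key : ∀ j ≤ C.length, τ (1, i, j) = false := by
      intro j
      induction j with
      | zero => exact fun _ => h0
      | succ j ih =>
        intro hj
        have hq : (C[j], j) ∈ C.zipIdx := List.mem_zipIdx_iff_getElem?.2 (by simp)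
        have h2 := h _ (List.mem_flatMap.2 ⟨_, hp, List.mem_append_right _
          (List.mem_map.2 ⟨_, hq, rfl⟩)⟩)
        have h3 := ih (by omega)
        have h4 := hcon C[j] (List.getElem_mem _)
        simp only [h3] at h2
        rcases h2 with h2 | h2 | h2
        · simp at h2
        · exact absurd h2 h4
        · exact h2
    rw [key _ le_rfl] at h1
    simp at h1
  · rintro ⟨τ, h⟩
    refine ⟨fun v => if v.1 = 0 then τ v.2.1
      else ((φ.getD v.2.1 []).take v.2.2).any fun l => τ l.2 == l.1, fun D hD => ?_⟩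
    obtain ⟨⟨C, i⟩, hp, hD⟩ := List.mem_flatMap.1 hD
    have hi : φ[i]? = some C := List.mem_zipIdx_iff_getElem?.1 hp
    have hg : φ.getD i [] = C := by simp [List.getD_eq_getElem?_getD, hi]
    simp only [force, List.mem_append, List.mem_map, List.mem_cons,
      List.not_mem_nil, or_false] at hD
    rcases hD with (hD | hD) | hD
    · left
      rcases hD with rfl | rfl | rfl | rfl <;> simp
    · left
      obtain ⟨l, hl, h1⟩ := h C (List.mem_of_getElem? hi)
      have : (C.any fun l => τ l.2 == l.1) = true := List.any_eq_true.2 ⟨l, hl, by simp [h1]⟩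
      rcases hD with rfl | rfl | rfl | rfl <;> simpa [hi] using this
    · obtain ⟨⟨l, j⟩, hq, rfl⟩ := hD
      have hj : C[j]? = some l := List.mem_zipIdx_iff_getElem?.1 hq
      simp only [one_ne_zero, if_false, if_true, hg, List.take_add_one, hj, Option.toList_some,
        List.any_append, List.any_cons, List.any_nil, Bool.or_false]
      cases (C.take j).any fun l => τ l.2 == l.1 <;> by_cases h1 : τ l.2 = l.1 <;> simp [h1]

end Pool.Agent.Shared.CookLevin
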