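import Pool.Agent.Shared.CookLevin.Tableau

/-!
A multi-stack machine of Mathlib seen as a local rewriting system.
-/

namespace Pool.Agent.Shared.CookLevin

open Turing Turing.TM2 Function

section stmt

variable {K : Type} [DecidableEq K] {Γ : K → Type} {Λ σ : Type}

/-- how deep a statement can look into the stacks -/
def bd : Stmt Γ Λ σ → ℕ
  | .push _ _ q => bd q
  | .peek _ _ q => bd q + 1
  | .pop _ _ q => bd q + 1
  | .load _ q => bd q
  | .branch _ q₁ q₂ => max (bd q₁) (bd q₂)
  | .goto _ => 0
  | .halt => 0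

/-- append the lower parts of the stacks -/
def app (C : Cfg Γ Λ σ) (B : ∀ k, List (Γ k)) : Cfg Γ Λ σ :=
  ⟨C.l, C.var, fun k => C.stk k ++ B k⟩

theorem update_append (A B : ∀ k, List (Γ k)) (k : K) (x : List (Γ k)) :
    update (fun k => A k ++ B k) k (x ++ B k) = fun k' => update A k x k' ++ B k' := by
  funext k'
  by_cases h : k' = k
  · subst h; simp
  · simp [update_of_ne h]

theorem stepAux_append (q : Stmt Γ Λ σ) (B : ∀ k, List (Γ k)) :
    ∀ (v : σ) (A : ∀ k, List (Γ k)), (∀ k, bd q ≤ (A k).length ∨ B k = []) →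
      stepAux q v (fun k => A k ++ B k) = app (stepAux q v A) B := by
  induction q with
  | push k f q ih =>
    intro v A h
    simp only [stepAux]
    rw [← List.cons_append, update_append, ih]
    intro k'
    rcases h k' with h1 | h1
    · left
      by_cases h2 : k' = k
      · subst h2; simp [bd] at h1 ⊢; omega
      · simpa [update_of_ne h2, bd] using h1
    · exact Or.inr h1
  | peek k f q ih =>
    intro v A h
    simp only [stepAux]
    have e : (A k ++ B k).head? = (A k).head? := by
      rcases h k with h1 | h1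
      · cases hA : A k with
        | nil => simp [hA, bd] at h1
        | cons a l => simp
      · simp [h1]
    rw [e, ih]
    intro k'
    rcases h k' with h1 | h1
    · left; simp [bd] at h1; omega
    · exact Or.inr h1
  | pop k f q ih =>
    intro v A h
    simp only [stepAux]
    have e : (A k ++ B k).head? = (A k).head? ∧ (A k ++ B k).tail = (A k).tail ++ B k := by
      rcases h k with h1 | h1
      · cases hA : A k with
        | nil => simp [hA, bd] at h1
        | cons a l => simp
      · simp [h1]
    rw [e.1, e.2, update_append, ih]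
    intro k'
    rcases h k' with h1 | h1
    · left
      by_cases h2 : k' = k
      · subst h2; simp [bd] at h1 ⊢; omega
      · simp [update_of_ne h2, bd] at h1 ⊢; omega
    · exact Or.inr h1
  | load a q ih =>
    intro v A h
    simp only [stepAux]
    exact ih _ _ h
  | branch f q₁ q₂ ih₁ ih₂ =>
    intro v A h
    simp only [stepAux]
    have h1 : ∀ k, bd q₁ ≤ (A k).length ∨ B k = [] := fun k =>
      (h k).imp_left fun h => le_trans (le_max_left _ _) h
    have h2 : ∀ k, bd q₂ ≤ (A k).length ∨ B k = [] := fun k =>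
      (h k).imp_left fun h => le_trans (le_max_right _ _) h
    rw [ih₁ _ _ h1, ih₂ _ _ h2]
    cases f v <;> rfl
  | goto f => intro v A _; rfl
  | halt => intro v A _; rfl

/-- the symbols a statement can push -/
noncomputable def pushes [Fintype σ] : Stmt Γ Λ σ → List (Σ k, Γ k)
  | .push k f q => (Finset.univ.toList.map fun v => ⟨k, f v⟩) ++ pushes q
  | .peek _ _ q => pushes q
  | .pop _ _ q => pushes q
  | .load _ q => pushes q
  | .branch _ q₁ q₂ => pushes q₁ ++ pushes q₂
  | .goto _ => []
  | .halt => []

/-- all stack symbols lie in `R` -/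
def Over (R : List (Σ k, Γ k)) (S : ∀ k, List (Γ k)) : Prop := ∀ k, ∀ a ∈ S k, ⟨k, a⟩ ∈ R

theorem stepAux_over [Fintype σ] (R : List (Σ k, Γ k)) (q : Stmt Γ Λ σ) :
    ∀ (v : σ) (S : ∀ k, List (Γ k)), pushes q ⊆ R → Over R S → Over R (stepAux q v S).stk := by
  induction q with
  | push k f q ih =>
    intro v S hq hS
    simp only [stepAux]
    refine ih _ _ (fun x hx => hq (List.mem_append_right _ hx)) fun k' a ha => ?_
    by_cases h : k' = k
    · subst h
      simp only [update_self, List.mem_cons] at ha
      rcases ha with rfl | ha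
      · exact hq (List.mem_append_left _ (List.mem_map.2 ⟨v, by simp, rfl⟩))
      · exact hS _ _ ha
    · rw [update_of_ne h] at ha
      exact hS _ _ ha
  | peek k f q ih => intro v S hq hS; exact ih _ _ hq hS
  | pop k f q ih =>
    intro v S hq hS
    simp only [stepAux]
    refine ih _ _ hq fun k' a ha => ?_
    by_cases h : k' = k
    · subst h
      simp only [update_self] at ha
      exact hS _ _ (List.mem_of_mem_tail ha)
    · rw [update_of_ne h] at ha
      exact hS _ _ ha
  | load a q ih => intro v S hq hS; exact ih _ _ hq hS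
  | branch f q₁ q₂ ih₁ ih₂ =>
    intro v S hq hS
    simp only [stepAux]
    cases f v
    · exact ih₂ _ _ (fun x hx => hq (List.mem_append_right _ hx)) hS
    · exact ih₁ _ _ (fun x hx => hq (List.mem_append_left _ hx)) hS
  | goto f => intro v S _ hS; exact hS
  | halt => intro v S _ hS; exact hS

/-- the step function, idle on halted configurations -/
def next (M : Λ → Stmt Γ Λ σ) (C : Cfg Γ Λ σ) : Cfg Γ Λ σ := (step M C).getD C

theorem iterate_next (M : Λ → Stmt Γ Λ σ) (n : ℕ) : ∀ (a b : Cfg Γ Λ σ),
    (flip bind (step M))^[n] (some a) = some b → (next M)^[n] a = b := by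
  have hnone : ∀ n : ℕ, (flip bind (step M))^[n] none = none := by
    intro n
    induction n with
    | zero => rfl
    | succ n ih => rw [iterate_succ_apply]; exact ih
  induction n with
  | zero => intro a b h; simpa using h
  | succ n ih =>
    intro a b h
    rw [iterate_succ_apply] at h ⊢
    change (flip bind (step M))^[n] (step M a) = some b at h
    cases hs : step M a with
    | none => rw [hs, hnone] at h; simp at h
    | some a' =>
      rw [hs] at h
      have : next M a = a' := by simp [next, hs]
      rw [this]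
      exact ih _ _ h

theorem next_halted (M : Λ → Stmt Γ Λ σ) (C : Cfg Γ Λ σ) (h : C.l = none) : next M C = C := by
  obtain ⟨l, v, S⟩ := C
  simp only at h
  subst h
  rfl

theorem iterate_next_of_le (M : Λ → Stmt Γ Λ σ) {n T : ℕ} (hT : n ≤ T) {a b : Cfg Γ Λ σ}
    (h : (flip bind (step M))^[n] (some a) = some b) (hb : b.l = none) : (next M)^[T] a = b := by
  obtain ⟨m, rfl⟩ := Nat.exists_eq_add_of_le hT
  rw [add_comm, iterate_add_apply, iterate_next M n a b h]
  exact iterate_fixed (next_halted M b hb) m

/-- the top part of a configuration -/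
def window (c : ℕ) (C : Cfg Γ Λ σ) : Cfg Γ Λ σ := ⟨C.l, C.var, fun k => (C.stk k).take c⟩

theorem next_window (M : Λ → Stmt Γ Λ σ) {c : ℕ} (hc : ∀ l, bd (M l) ≤ c) (C : Cfg Γ Λ σ) :
    next M C = app (next M (window c C)) (fun k => (C.stk k).drop c) := by
  obtain ⟨l, v, S⟩ := C
  cases l with
  | none => simp [next, window, app]
  | some l =>
    have h := stepAux_append (M l) (fun k => (S k).drop c) v (fun k => (S k).take c) (by
      intro k
      rcases le_total c (S k).length with h | h
      · left; rw [List.length_take_of_le h]; exact hc l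
      · right; exact List.drop_eq_nil_of_le h)
    simp only [List.take_append_drop] at h
    simpa [next, window] using h

theorem next_over [Fintype σ] (M : Λ → Stmt Γ Λ σ) {R : List (Σ k, Γ k)}
    (hR : ∀ l, pushes (M l) ⊆ R) (C : Cfg Γ Λ σ) (h : Over R C.stk) : Over R (next M C).stk := by
  obtain ⟨l, v, S⟩ := C
  cases l with
  | none => exact h
  | some l => exact stepAux_over R (M l) v S (hR l) h

theorem finite_lists {α : Type} {s : Set α} (hs : s.Finite) (c : ℕ) :
    {l : List α | l.length ≤ c ∧ ∀ a ∈ l, a ∈ s}.Finite := by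
  have := hs.to_subtype
  refine ((List.finite_length_le s c).image (List.map Subtype.val)).subset ?_
  rintro l ⟨h1, h2⟩
  exact ⟨l.attachWith _ h2, by simpa using h1, by simp⟩

omit [DecidableEq K] in
theorem finite_windows [Fintype K] [Fintype Λ] [Fintype σ] (R : List (Σ k, Γ k)) (c : ℕ) :
    {W : Cfg Γ Λ σ | (∀ k, (W.stk k).length ≤ c) ∧ Over R W.stk}.Finite := by
  have h1 : ∀ k, {a : Γ k | (⟨k, a⟩ : Σ k, Γ k) ∈ R}.Finite := fun k =>
    R.finite_toSet.preimage (f := Sigma.mk k) sigma_mk_injective.injOn
  have h2 := Set.Finite.pi' fun k => finite_lists (h1 k) c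
  have h3 := (Set.finite_univ (α := Option Λ × σ)).prod h2
  refine (h3.image fun p => (⟨p.1.1, p.1.2, p.2⟩ : Cfg Γ Λ σ)).subset ?_
  rintro ⟨l, v, S⟩ ⟨h4, h5⟩
  exact ⟨((l, v), S), ⟨trivial, fun k => ⟨h4 k, h5 k⟩⟩, rfl⟩

end stmt

section coding

set_option linter.unusedSectionVars false

variable {K : Type} [DecidableEq K] [Fintype K] {Γ : K → Type} {Λ σ : Type} [Fintype Λ] [Fintype σ]

open Classical in
/-- code of a cell -/
noncomputable def code (R : List (Σ k, Γ k)) (k : K) (o : Option (Γ k)) : ℕ :=
  o.elim 0 fun a => R.idxOf ⟨k, a⟩ + 1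

theorem code_inj {R : List (Σ k, Γ k)} {k : K} {o o' : Option (Γ k)}
    (ho : ∀ a ∈ o, (⟨k, a⟩ : Σ k, Γ k) ∈ R) (h : code R k o = code R k o') : o = o' := by
  classical
  cases o with
  | none => cases o' <;> simp [code] at h ⊢
  | some a =>
    cases o' with
    | none => simp [code] at h
    | some b =>
      simp only [code, Option.elim_some, add_left_inj] at h
      rw [sigma_mk_injective ((List.idxOf_inj (ho a rfl)).1 h)]

theorem code_le (R : List (Σ k, Γ k)) (k : K) (o : Option (Γ k)) : code R k o ≤ R.length + 1 := by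
  classical
  cases o with
  | none => simp [code]
  | some a => simpa [code] using List.idxOf_le_length

/-- code of the control state -/
noncomputable def ctl (C : Cfg Γ Λ σ) : ℕ := Fintype.equivFin (Option Λ × σ) (C.l, C.var)

/-- row of a stack -/
noncomputable def row (k : K) : ℕ := Fintype.equivFin K k + 1

/-- the rows of numbers describing a configuration -/
noncomputable def view (R : List (Σ k, Γ k)) (C : Cfg Γ Λ σ) (r j : ℕ) : ℕ :=
  if h : 0 < r ∧ r - 1 < Fintype.card K then
    code R ((Fintype.equivFin K).symm ⟨r - 1, h.2⟩) (C.stk _)[j]?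
  else if r + j = 0 then ctl C else 0

theorem row_lt (k : K) : row k < Fintype.card K + 1 := by
  unfold row; have := (Fintype.equivFin K k).2; omega

theorem view_row (R : List (Σ k, Γ k)) (C : Cfg Γ Λ σ) (k : K) (j : ℕ) :
    view R C (row k) j = code R k (C.stk k)[j]? := by
  have h : 0 < row k ∧ row k - 1 < Fintype.card K := by
    have := row_lt k
    unfold row at *
    omega
  unfold view
  rw [dif_pos h]
  have e : (Fintype.equivFin K).symm ⟨row k - 1, h.2⟩ = k := by
    rw [Equiv.symm_apply_eq]
    ext
    simp [row]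
  rw [e]

theorem view_zero (R : List (Σ k, Γ k)) (C : Cfg Γ Λ σ) (j : ℕ) :
    view R C 0 j = if j = 0 then ctl C else 0 := by
  simp [view]

theorem exists_row {r : ℕ} (h0 : r ≠ 0) (h : r < Fintype.card K + 1) : ∃ k : K, row k = r :=
  ⟨(Fintype.equivFin K).symm ⟨r - 1, by omega⟩, by simp [row]; omega⟩

/-- the rule attached to a window -/
noncomputable def ruleOf (M : Λ → Stmt Γ Λ σ) (R : List (Σ k, Γ k)) (c : ℕ) (W : Cfg Γ Λ σ) :
    Rule :=
  ((0, 0, ctl W) :: (Finset.univ : Finset K).toList.flatMap fun k =>
      (List.range c).map fun j => (row k, j, code R k (W.stk k)[j]?),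
   (0, 0, ctl (next M W)) :: (Finset.univ : Finset K).toList.flatMap fun k =>
      (List.range ((next M W).stk k).length).map fun j =>
        (row k, j, code R k ((next M W).stk k)[j]?),
   (0, 1) :: (Finset.univ : Finset K).toList.map fun k => (row k, ((next M W).stk k).length))

theorem matches_window (M : Λ → Stmt Γ Λ σ) (R : List (Σ k, Γ k)) (c : ℕ) (C : Cfg Γ Λ σ) :
    Matches (ruleOf M R c (window c C)) (view R C) := by
  intro p hp
  rcases List.mem_cons.1 hp with rfl | hp
  · simp [view_zero, ctl, window]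
  · obtain ⟨k, -, hp⟩ := List.mem_flatMap.1 hp
    obtain ⟨j, hj, rfl⟩ := List.mem_map.1 hp
    simp only [view_row, window, List.getElem?_take_of_lt (List.mem_range.1 hj)]

theorem eq_window_of_matches (M : Λ → Stmt Γ Λ σ) {R : List (Σ k, Γ k)} {c : ℕ}
    {W C : Cfg Γ Λ σ} (hW : ∀ k, (W.stk k).length ≤ c) (hC : Over R C.stk)
    (h : Matches (ruleOf M R c W) (view R C)) : W = window c C := by
  have h1 := h (0, 0, ctl W) List.mem_cons_self
  simp only [view_zero, if_true, ctl] at h1
  have h2 := (Fintype.equivFin (Option Λ × σ)).injective (Fin.ext h1)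
  obtain ⟨l, v, S⟩ := W
  simp only [Prod.mk.injEq] at h2
  obtain ⟨rfl, rfl⟩ := h2
  unfold window
  congr 1
  funext k
  refine List.ext_getElem? fun j => ?_
  rcases Nat.lt_or_ge j c with hj | hj
  · have h3 := h (row k, j, code R k (S k)[j]?) (List.mem_cons_of_mem _
      (List.mem_flatMap.2 ⟨k, by simp, List.mem_map.2 ⟨j, List.mem_range.2 hj, rfl⟩⟩))
    simp only [view_row] at h3
    rw [List.getElem?_take_of_lt hj]
    exact (code_inj (fun a ha => hC k a (List.mem_of_getElem? ha)) h3).symm
  · have h4 := hW k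
    simp only at h4
    rw [List.getElem?_eq_none (by omega), List.getElem?_eq_none (by simp; omega)]

theorem holds_window (M : Λ → Stmt Γ Λ σ) (R : List (Σ k, Γ k)) {c : ℕ} (hc0 : 0 < c)
    (hc : ∀ l, bd (M l) ≤ c) (C : Cfg Γ Λ σ) :
    Holds c (ruleOf M R c (window c C)) (view R C) (view R (next M C)) := by
  rw [next_window M hc C]
  constructor
  · intro q hq
    rcases List.mem_cons.1 hq with rfl | hq
    · simp [view_zero, ctl, app]
    · obtain ⟨k, -, hq⟩ := List.mem_flatMap.1 hq
      obtain ⟨j, hj, rfl⟩ := List.mem_map.1 hq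
      simp only [view_row, app, List.getElem?_append_left (List.mem_range.1 hj)]
  · intro sh hsh j
    rcases List.mem_cons.1 hsh with rfl | hsh
    · simp [view_zero, hc0.ne']
    · obtain ⟨k, -, rfl⟩ := List.mem_map.1 hsh
      simp only [view_row, app, List.getElem?_append_right (Nat.le_add_right _ _),
        Nat.add_sub_cancel_left, List.getElem?_drop]

/-- all rules -/
noncomputable def rulesOf (M : Λ → Stmt Γ Λ σ) (R : List (Σ k, Γ k)) (c : ℕ) : List Rule :=
  (finite_windows (Λ := Λ) (σ := σ) R c).toFinset.toList.map (ruleOf M R c)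

theorem isRun (M : Λ → Stmt Γ Λ σ) {R : List (Σ k, Γ k)} (hR : ∀ l, pushes (M l) ⊆ R) {D : Data}
    (hc0 : 0 < D.c) (hc : ∀ l, bd (M l) ≤ D.c) (hr : D.rules = rulesOf M R D.c)
    (hκ : D.κ = Fintype.card K + 1) (hs : D.s = R.length + 2 + Fintype.card (Option Λ × σ))
    (C : Cfg Γ Λ σ) (hC : Over R C.stk) : IsRun D (fun t => view R ((next M)^[t] C)) := by
  have hov : ∀ t, Over R ((next M)^[t] C).stk := by
    intro t
    induction t with
    | zero => exact hC
    | succ t ih => rw [iterate_succ_apply']; exact next_over M hR _ ih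
  refine ⟨fun t ρ hρ hm => ?_, fun t => ?_, fun t k j => ?_⟩
  · rw [hr] at hρ
    obtain ⟨W, hW, rfl⟩ := List.mem_map.1 hρ
    rw [Finset.mem_toList, Set.Finite.mem_toFinset] at hW
    have := eq_window_of_matches M hW.1 (hov t) hm
    subst this
    simp only [iterate_succ_apply']
    exact holds_window M R hc0 hc _
  · refine ⟨ruleOf M R D.c (window D.c ((next M)^[t] C)), ?_, matches_window M R _ _, ?_, ?_⟩
    · rw [hr]
      refine List.mem_map.2 ⟨_, ?_, rfl⟩
      rw [Finset.mem_toList, Set.Finite.mem_toFinset]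
      exact ⟨fun k => by simp [window], fun k a ha => hov t k a (List.mem_of_mem_take ha)⟩
    · intro p hp
      rcases List.mem_cons.1 hp with rfl | hp
      · simp [hκ, hc0]
      · obtain ⟨k, -, hp⟩ := List.mem_flatMap.1 hp
        obtain ⟨j, hj, rfl⟩ := List.mem_map.1 hp
        exact ⟨hκ ▸ row_lt k, List.mem_range.1 hj⟩
    · intro r hr' p
      by_cases h0 : r = 0
      · subst h0
        rcases Nat.eq_zero_or_pos p with rfl | hp
        · exact Or.inl ⟨_, List.mem_cons_self⟩
        · exact Or.inr ⟨1, hp, List.mem_cons_self⟩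
      · obtain ⟨k, rfl⟩ := exists_row (K := K) h0 (hκ ▸ hr')
        rcases Nat.lt_or_ge p ((next M (window D.c ((next M)^[t] C))).stk k).length with hp | hp
        · exact Or.inl ⟨_, List.mem_cons_of_mem _ (List.mem_flatMap.2
            ⟨k, by simp, List.mem_map.2 ⟨p, List.mem_range.2 hp, rfl⟩⟩)⟩
        · exact Or.inr ⟨_, hp, List.mem_cons_of_mem _ (List.mem_map.2 ⟨k, by simp, rfl⟩)⟩
  · rw [hs]
    unfold view
    split_ifs with h1 h2
    · exact lt_of_le_of_lt (code_le R _ _) (by omega)
    · have := (Fintype.equivFin (Option Λ × σ) (((next M)^[t] C).l, ((next M)^[t] C).var)).2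
      unfold ctl
      omega
    · omega

end coding

end Pool.Agent.Shared.CookLevin
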