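import Pool.Agent.Shared.CookLevin.CNF

/-!
The tableau formula of an abstract local rewriting system on rows of natural numbers.
-/

namespace Pool.Agent.Shared.CookLevin

open Pool.Agent.Shared.PolyTime

/-- premises (row, position, value), conclusions (row, position, value), shifts (row, offset) -/
abbrev Rule := List (ℕ × ℕ × ℕ) × List (ℕ × ℕ × ℕ) × List (ℕ × ℕ)

/-- variables of the tableau formula -/
abbrev TV := ℕ × ℕ × ℕ × ℕ

/-- the constants describing a system -/
structure Data where
  rules : List Rule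
  c : ℕ
  s : ℕ
  κ : ℕ
  q0 : ℕ
  r0 : ℕ
  r1 : ℕ
  iT : ℕ
  iF : ℕ
  oF : ℕ

/-- at time `t` the cell `(k, j)` holds `a` -/
def X (t k j a : ℕ) : TV := (t + 1, k, j, a)
/-- the witness has length more than `i` -/
def E (i : ℕ) : TV := (0, 0, i, 0)
/-- bit `i` of the witness -/
def Wt (i : ℕ) : TV := (0, 1, i, 0)

def negPrem (t : ℕ) (ρ : Rule) : List (Bool × TV) := ρ.1.map fun p => (false, X t p.1 p.2.1 p.2.2)

def stepClauses (D : Data) (N t : ℕ) : CNF TV := D.rules.flatMap fun ρ =>
  (ρ.2.1.map fun q => (true, X (t + 1) q.1 q.2.1 q.2.2) :: negPrem t ρ) ++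
    ρ.2.2.flatMap fun sh => (List.range N).flatMap fun j => (List.range D.s).map fun a =>
      (true, X (t + 1) sh.1 (sh.2 + j) a) :: (false, X t sh.1 (D.c + j) a) :: negPrem t ρ

def otherRows (D : Data) (N : ℕ) : CNF TV := (List.range D.κ).flatMap fun k =>
  if k = D.r0 then [] else (List.range N).map fun j =>
    [(true, X 0 k j (if k + j = 0 then D.q0 else 0))]

def inputPart (D : Data) (P : List Bool) : CNF TV :=
  P.zipIdx.map fun q => [(true, X 0 D.r0 q.2 (cond q.1 D.iT D.iF))]

def block (D : Data) (p i : ℕ) : CNF TV :=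
  [[(false, E i), (true, X 0 D.r0 (p + 3 * i) D.iT)],
   [(false, E i), (false, Wt i), (true, X 0 D.r0 (p + 3 * i + 1) D.iT)],
   [(false, E i), (true, Wt i), (true, X 0 D.r0 (p + 3 * i + 1) D.iF)],
   [(false, E i), (true, X 0 D.r0 (p + 3 * i + 2) D.iF)],
   [(true, E i), (true, X 0 D.r0 (p + 3 * i) 0)],
   [(true, E i), (true, X 0 D.r0 (p + 3 * i + 1) 0)],
   [(true, E i), (true, X 0 D.r0 (p + 3 * i + 2) 0)],
   [(false, E (i + 1)), (true, E i)]]

/-- The tableau formula: known input part `P`, witness length at most `L`, `T` steps, width `N`. -/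
def formula (D : Data) (P : List Bool) (L T N : ℕ) : CNF TV :=
  [(false, X T D.r1 0 D.oF)] :: [(false, E L)] :: (otherRows D N ++ inputPart D P ++
    ((List.range N).flatMap fun i => block D P.length i) ++
    (List.range T).flatMap fun t => stepClauses D N t)

theorem formula_pt (D : Data) {α : Type} [N487b59b3 α] {P : α → List Bool} {L T N : α → ℕ}
    (hP : PT P) (hL : PT L) (hT : PT T) (hN : PT N) (bT : PB T) (bN : PB N) :
    PT (fun a => formula D (P a) (L a) (T a) (N a)) := by
  have hrN : PT (fun a => List.range (N a)) := PT.range hN bN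
  have hrT : PT (fun a => List.range (T a)) := PT.range hT bT
  have h : PT (fun p : List Bool × ℕ × ℕ × List ℕ × List ℕ =>
      ([(false, X p.2.2.1 D.r1 0 D.oF)] :: [(false, E p.2.1)] ::
        (((List.range D.κ).flatMap fun k =>
          if k = D.r0 then [] else p.2.2.2.1.map fun j =>
            [(true, X 0 k j (if k + j = 0 then D.q0 else 0))]) ++ inputPart D p.1 ++
        (p.2.2.2.1.flatMap fun i => block D p.1.length i) ++
        p.2.2.2.2.flatMap fun t => D.rules.flatMap fun ρ =>
          (ρ.2.1.map fun q => (true, X (t + 1) q.1 q.2.1 q.2.2) :: negPrem t ρ) ++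
            ρ.2.2.flatMap fun sh => p.2.2.2.1.flatMap fun j => (List.range D.s).map fun a =>
              (true, X (t + 1) sh.1 (sh.2 + j) a) :: (false, X t sh.1 (D.c + j) a) ::
                negPrem t ρ) : CNF TV)) := by
    unfold inputPart block negPrem X E Wt
    fun_prop
  exact h.comp' (f := fun a => (P a, L a, T a, List.range (N a), List.range (T a))) (by fun_prop)

def Matches (ρ : Rule) (g : ℕ → ℕ → ℕ) : Prop := ∀ p ∈ ρ.1, g p.1 p.2.1 = p.2.2

def Holds (c : ℕ) (ρ : Rule) (g g' : ℕ → ℕ → ℕ) : Prop :=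
  (∀ q ∈ ρ.2.1, g' q.1 q.2.1 = q.2.2) ∧ ∀ sh ∈ ρ.2.2, ∀ j, g' sh.1 (sh.2 + j) = g sh.1 (c + j)

/-- `g` is a run of the system -/
structure IsRun (D : Data) (g : ℕ → ℕ → ℕ → ℕ) : Prop where
  sound : ∀ t, ∀ ρ ∈ D.rules, Matches ρ (g t) → Holds D.c ρ (g t) (g (t + 1))
  total : ∀ t, ∃ ρ ∈ D.rules, Matches ρ (g t) ∧ (∀ p ∈ ρ.1, p.1 < D.κ ∧ p.2.1 < D.c) ∧
    ∀ k < D.κ, ∀ p, (∃ a, (k, p, a) ∈ ρ.2.1) ∨ ∃ m ≤ p, (k, m) ∈ ρ.2.2
  bound : ∀ t k j, g t k j < D.s

/-- the encoding of the witness -/
def encW (w : List Bool) : List Bool := w.flatMap fun b => [true, b, false]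

/-- the initial contents -/
def init (D : Data) (u : List Bool) (k j : ℕ) : ℕ :=
  if k = D.r0 then (u[j]?).elim 0 (fun b => cond b D.iT D.iF)
  else if k + j = 0 then D.q0 else 0

theorem encW_getElem? (w : List Bool) (i : ℕ) :
    (encW w)[3 * i]? = (w[i]?).map (fun _ => true) ∧ (encW w)[3 * i + 1]? = w[i]? ∧
      (encW w)[3 * i + 2]? = (w[i]?).map (fun _ => false) := by
  induction w generalizing i with
  | nil => simp [encW]
  | cons b w ih =>
    have e : encW (b :: w) = true :: b :: false :: encW w := by simp [encW]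
    rw [e]
    cases i with
    | zero => simp
    | succ i =>
      have h1 : 3 * (i + 1) = 3 * i + 1 + 1 + 1 := by ring
      rw [h1]
      simpa using ih i

theorem init_block (D : Data) (P w : List Bool) (i : ℕ) :
    init D (P ++ encW w) D.r0 (P.length + 3 * i) = (w[i]?).elim 0 (fun _ => D.iT) ∧
    init D (P ++ encW w) D.r0 (P.length + 3 * i + 1)
      = (w[i]?).elim 0 (fun b => cond b D.iT D.iF) ∧
    init D (P ++ encW w) D.r0 (P.length + 3 * i + 2) = (w[i]?).elim 0 (fun _ => D.iF) := by
  obtain ⟨h0, h1, h2⟩ := encW_getElem? w i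
  unfold init
  simp only [if_true, add_assoc, List.getElem?_append_right (Nat.le_add_right _ _),
    Nat.add_sub_cancel_left, h0, h1, h2]
  cases w[i]? <;> simp

theorem forcing {D : Data} {g : ℕ → ℕ → ℕ → ℕ} (hg : IsRun D g) {τ : TV → Bool} {N T : ℕ}
    (hN : (T + 1) * D.c ≤ N)
    (hs : ∀ t < T, ∀ C ∈ stepClauses D N t, ∃ l ∈ C, τ l.2 = l.1)
    (h0 : ∀ k < D.κ, ∀ j < N, τ (X 0 k j (g 0 k j)) = true) :
    ∀ t ≤ T, ∀ k < D.κ, ∀ j, j + t * D.c < N → τ (X t k j (g t k j)) = true := by
  intro t
  induction t with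
  | zero => intro _ k hk j hj; exact h0 k hk j (by omega)
  | succ t ih =>
    intro ht k hk p hp
    obtain ⟨ρ, hρ, hm, hb, hc⟩ := hg.total t
    obtain ⟨hcon, hsh⟩ := hg.sound t ρ hρ hm
    have hneg : ∀ l ∈ negPrem t ρ, τ l.2 ≠ l.1 := by
      intro l hl
      obtain ⟨q, hq, rfl⟩ := List.mem_map.1 hl
      have h1 := hb q hq
      have h2 : (t + 1) * D.c ≤ (T + 1) * D.c := Nat.mul_le_mul_right _ (by omega)
      have h3 := ih (by omega) q.1 h1.1 q.2.1 (by rw [add_mul] at h2; omega)
      rw [hm q hq] at h3
      simp [h3]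
    rcases hc k hk p with ⟨a, ha⟩ | ⟨m, hmp, hm'⟩
    · obtain ⟨l, hl, h1⟩ := hs t (by omega) _ (List.mem_flatMap.2 ⟨ρ, hρ,
        List.mem_append_left _ (List.mem_map.2 ⟨_, ha, rfl⟩)⟩)
      rcases List.mem_cons.1 hl with rfl | hl
      · have h2 := hcon _ ha
        simp only at h2 h1
        rw [h2]; exact h1
      · exact absurd h1 (hneg l hl)
    · obtain ⟨j, rfl⟩ := Nat.exists_eq_add_of_le hmp
      rw [add_mul] at hp
      obtain ⟨l, hl, h1⟩ := hs t (by omega) _ (List.mem_flatMap.2 ⟨ρ, hρ,
        List.mem_append_right _ (List.mem_flatMap.2 ⟨_, hm', List.mem_flatMap.2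
          ⟨j, List.mem_range.2 (by omega), List.mem_map.2
            ⟨g t k (D.c + j), List.mem_range.2 (hg.bound _ _ _), rfl⟩⟩⟩)⟩)
      rcases List.mem_cons.1 hl with rfl | hl
      · have h2 := hsh _ hm' j
        simp only at h2 h1
        rw [h2]; exact h1
      · rcases List.mem_cons.1 hl with rfl | hl
        · have h3 := ih (by omega) k hk (D.c + j) (by omega)
          simp only at h1
          rw [h3] at h1
          simp at h1
        · exact absurd h1 (hneg l hl)

theorem sat_formula {D : Data} {P : List Bool} {L T N : ℕ} (G : List Bool → ℕ → ℕ → ℕ → ℕ)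
    (hG : ∀ w, IsRun D (G w)) (h0 : ∀ w, G w 0 = init D (P ++ encW w))
    (hr1 : D.r1 < D.κ) (hN : (T + 1) * D.c < N) :
    Sat (formula D P L T N) ↔ ∃ w : List Bool, w.length ≤ L ∧ G w T D.r1 0 ≠ D.oF := by
  constructor
  · rintro ⟨τ, h⟩
    have hfin : τ (X T D.r1 0 D.oF) = false := by
      simpa using h [(false, X T D.r1 0 D.oF)] (by simp [formula])
    have hEL : τ (E L) = false := by
      simpa using h [(false, E L)] (by simp [formula])
    have hblock : ∀ i < N, ∀ C ∈ block D P.length i, ∃ l ∈ C, τ l.2 = l.1 := by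
      intro i hi C hC
      refine h C ?_
      simp only [formula, List.mem_cons, List.mem_append, List.mem_flatMap, List.mem_range]
      exact Or.inr (Or.inr (Or.inl (Or.inr ⟨i, hi, hC⟩)))
    have hex : ∃ i, τ (E i) = false := ⟨L, hEL⟩
    let ℓ := Nat.find hex
    have hℓ : ℓ ≤ L := Nat.find_min' hex hEL
    have hlt : ∀ i < ℓ, τ (E i) = true := fun i hi => by simpa using Nat.find_min hex hi
    have hge : ∀ i, ℓ ≤ i → i ≤ N → τ (E i) = false := by
      intro i hi
      induction i, hi using Nat.le_induction with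
      | base => exact fun _ => Nat.find_spec hex
      | succ i _ ih =>
        intro hi
        have h1 := hblock i (by omega) [(false, E (i + 1)), (true, E i)] (by simp [block])
        simpa [ih (by omega)] using h1
    let w := (List.range ℓ).map fun i => τ (Wt i)
    refine ⟨w, by simpa [w] using hℓ, fun hw => ?_⟩
    have hf := forcing (hG w) (τ := τ) (N := N) (T := T) hN.le ?_ ?_ T le_rfl D.r1 hr1 0
      (by rw [add_mul] at hN; omega)
    · rw [hw, hfin] at hf
      simp at hf
    · intro t ht C hC
      refine h C ?_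
      simp only [formula, List.mem_cons, List.mem_append, List.mem_flatMap, List.mem_range]
      exact Or.inr (Or.inr (Or.inr ⟨t, ht, hC⟩))
    · intro k hk j hj
      rw [h0]
      by_cases hk0 : k = D.r0
      · subst hk0
        rcases Nat.lt_or_ge j P.length with hjP | hjP
        · have h1 := h [(true, X 0 D.r0 j (cond P[j] D.iT D.iF))] (by
            simp only [formula, List.mem_cons, List.mem_append]
            refine Or.inr (Or.inr (Or.inl (Or.inl (Or.inr ?_))))
            exact List.mem_map.2 ⟨(P[j], j), List.mem_zipIdx_iff_getElem?.2 (by simp), rfl⟩)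
          have h2 : init D (P ++ encW w) D.r0 j = cond P[j] D.iT D.iF := by
            simp [init, List.getElem?_append_left hjP, List.getElem?_eq_getElem hjP]
          rw [h2]
          simpa using h1
        · obtain ⟨i, hi⟩ : ∃ i, j = P.length + 3 * i ∨ j = P.length + 3 * i + 1 ∨
              j = P.length + 3 * i + 2 := ⟨(j - P.length) / 3, by omega⟩
          have hiN : i < N := by omega
          obtain ⟨b0, b1, b2⟩ := init_block D P w i
          have hb := hblock i hiN
          simp only [block, List.mem_cons, List.not_mem_nil, or_false, forall_eq_or_imp,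
            forall_eq, exists_eq_or_imp, exists_eq_left] at hb
          obtain ⟨c1, c2, c3, c4, c5, c6, c7, -⟩ := hb
          rcases Nat.lt_or_ge i ℓ with hil | hil
          · have e1 := hlt i hil
            have e2 : w[i]? = some (τ (Wt i)) := by simp [w, hil]
            rw [e2] at b0 b1 b2
            rcases hi with rfl | rfl | rfl
            · rw [b0]; simpa [e1] using c1
            · rw [b1]
              cases hW : τ (Wt i)
              · simpa [e1, hW] using c3
              · simpa [e1, hW] using c2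
            · rw [b2]; simpa [e1] using c4
          · have e1 := hge i hil hiN.le
            have e2 : w[i]? = none := by simp [w, hil]
            rw [e2] at b0 b1 b2
            rcases hi with rfl | rfl | rfl
            · rw [b0]; simpa [e1] using c5
            · rw [b1]; simpa [e1] using c6
            · rw [b2]; simpa [e1] using c7
      · have h1 := h [(true, X 0 k j (if k + j = 0 then D.q0 else 0))] (by
          simp only [formula, List.mem_cons, List.mem_append]
          refine Or.inr (Or.inr (Or.inl (Or.inl (Or.inl ?_))))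
          refine List.mem_flatMap.2 ⟨k, List.mem_range.2 hk, ?_⟩
          rw [if_neg hk0]
          exact List.mem_map.2 ⟨j, List.mem_range.2 hj, rfl⟩)
        unfold init
        rw [if_neg hk0]
        simpa using h1
  · rintro ⟨w, hw, hout⟩
    let τ : TV → Bool := fun v => if v.1 = 0 then
      (if v.2.1 = 0 then decide (v.2.2.1 < w.length) else w.getD v.2.2.1 false)
      else decide (G w (v.1 - 1) v.2.1 v.2.2.1 = v.2.2.2)
    have tX : ∀ t k j a, τ (X t k j a) = decide (G w t k j = a) := by
      intro t k j a; simp [τ, X]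
    have tE : ∀ i, τ (E i) = decide (i < w.length) := by
      intro i; simp [τ, E]
    have tW : ∀ i, τ (Wt i) = w.getD i false := by
      intro i; simp [τ, Wt]
    refine ⟨τ, fun C hC => ?_⟩
    simp only [formula, List.mem_cons, List.mem_append, List.mem_flatMap, List.mem_range] at hC
    rcases hC with rfl | rfl | ((hC | hC) | ⟨i, -, hC⟩) | ⟨t, -, hC⟩
    · simpa [tX] using hout
    · simpa [tE] using hw
    · obtain ⟨k, -, hC⟩ := List.mem_flatMap.1 hC
      by_cases hk0 : k = D.r0
      · simp [hk0] at hC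
      · rw [if_neg hk0] at hC
        obtain ⟨j, -, rfl⟩ := List.mem_map.1 hC
        simp [tX, h0, init, hk0]
    · obtain ⟨⟨b, j⟩, hq, rfl⟩ := List.mem_map.1 hC
      have hj : P[j]? = some b := List.mem_zipIdx_iff_getElem?.1 hq
      have hjP : j < P.length := (List.getElem?_eq_some_iff.1 hj).1
      simp [tX, h0, init, List.getElem?_append_left hjP, hj]
    · obtain ⟨b0, b1, b2⟩ := init_block D P w i
      simp only [block, List.mem_cons, List.not_mem_nil, or_false] at hC
      rcases Nat.lt_or_ge i w.length with hil | hil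
      · have e2 : w[i]? = some w[i] := by simp [hil]
        rw [e2] at b0 b1 b2
        have e3 : i + 1 < w.length → i < w.length := by omega
        rcases hC with rfl | rfl | rfl | rfl | rfl | rfl | rfl | rfl <;>
          simp only [List.mem_cons, List.not_mem_nil, or_false, exists_eq_or_imp, exists_eq_left,
            tX, tE, tW, h0, b0, b1, b2] <;> cases hb : w[i] <;> simp [hil, hb]
      · have e2 : w[i]? = none := by simp [hil]
        rw [e2] at b0 b1 b2
        have e3 : ¬ i < w.length := by omega
        have e4 : ¬ i + 1 < w.length := by omega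
        rcases hC with rfl | rfl | rfl | rfl | rfl | rfl | rfl | rfl <;>
          simp only [List.mem_cons, List.not_mem_nil, or_false, exists_eq_or_imp, exists_eq_left,
            tX, tE, tW, h0, b0, b1, b2] <;> simp [e3, e4]
    · obtain ⟨ρ, hρ, hC⟩ := List.mem_flatMap.1 hC
      by_cases hm : Matches ρ (G w t)
      · obtain ⟨hcon, hsh⟩ := (hG w).sound t ρ hρ hm
        rcases List.mem_append.1 hC with hC | hC
        · obtain ⟨q, hq, rfl⟩ := List.mem_map.1 hC
          exact ⟨_, List.mem_cons_self, by simp [tX, hcon q hq]⟩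
        · obtain ⟨sh, hsh', hC⟩ := List.mem_flatMap.1 hC
          obtain ⟨j, -, hC⟩ := List.mem_flatMap.1 hC
          obtain ⟨a, -, rfl⟩ := List.mem_map.1 hC
          by_cases ha : G w t sh.1 (D.c + j) = a
          · exact ⟨_, List.mem_cons_self, by simp [tX, hsh sh hsh' j, ha]⟩
          · exact ⟨_, List.mem_cons_of_mem _ List.mem_cons_self, by simp [tX, ha]⟩
      · have hneg : ∃ l ∈ negPrem t ρ, τ l.2 = l.1 := by
          unfold Matches at hm
          push Not at hm
          obtain ⟨p, hp, h1⟩ := hm
          exact ⟨_, List.mem_map.2 ⟨p, hp, rfl⟩, by simp [tX, h1]⟩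
        obtain ⟨l, hl, h1⟩ := hneg
        rcases List.mem_append.1 hC with hC | hC
        · obtain ⟨q, hq, rfl⟩ := List.mem_map.1 hC
          exact ⟨l, List.mem_cons_of_mem _ hl, h1⟩
        · obtain ⟨sh, hsh', hC⟩ := List.mem_flatMap.1 hC
          obtain ⟨j, -, hC⟩ := List.mem_flatMap.1 hC
          obtain ⟨a, -, rfl⟩ := List.mem_map.1 hC
          exact ⟨l, List.mem_cons_of_mem _ (List.mem_cons_of_mem _ hl), h1⟩

end Pool.Agent.Shared.CookLevin
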